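import Pool.Agent.Helper25.PCap.GoalsS

/-!
Packet S14b of MP_576c25_an (planar p-capacity): the support function of the segment.
-/

set_option autoImplicit false

open MeasureTheory Set Filter Topology
open scoped ContDiff Real

noncomputable section

namespace Pool.Agent.Helper29.PCap.S14b

open Pool.Agent.Helper25.PCap

theorem isOpen_SC : IsOpen SC := by
  have h1 : IsOpen {z : ℝ × ℝ | z.1 < 0} := isOpen_lt continuous_fst continuous_const
  have h2 : IsOpen {z : ℝ × ℝ | Real.sin z.2 ≠ 0} :=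
    isOpen_ne_fun (Real.continuous_sin.comp continuous_snd) continuous_const
  exact h1.union h2

theorem hda1 {f : ℝ × ℝ → ℝ} {τ θ : ℝ} (h : DifferentiableAt ℝ f (τ, θ)) :
    HasDerivAt (fun t => f (t, θ)) (D1 f (τ, θ)) τ := by
  have h1 : HasDerivAt (fun t : ℝ => (t, θ)) ((1 : ℝ), (0 : ℝ)) τ :=
    (hasDerivAt_id τ).prodMk (hasDerivAt_const τ θ)
  exact h.hasFDerivAt.comp_hasDerivAt τ h1

theorem hda2 {f : ℝ × ℝ → ℝ} {τ θ : ℝ} (h : DifferentiableAt ℝ f (τ, θ)) :
    HasDerivAt (fun s => f (τ, s)) (D2 f (τ, θ)) θ := by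
  have h1 : HasDerivAt (fun s : ℝ => (τ, s)) ((0 : ℝ), (1 : ℝ)) θ :=
    (hasDerivAt_const θ τ).prodMk (hasDerivAt_id θ)
  exact h.hasFDerivAt.comp_hasDerivAt θ h1

theorem cdD1 {f : ℝ × ℝ → ℝ} (hf : ContDiffOn ℝ ∞ f SC) : ContDiffOn ℝ ∞ (D1 f) SC := by
  have h := hf.fderiv_of_isOpen (m := ∞) isOpen_SC (by simp)
  exact h.clm_apply contDiffOn_const

theorem cdD2 {f : ℝ × ℝ → ℝ} (hf : ContDiffOn ℝ ∞ f SC) : ContDiffOn ℝ ∞ (D2 f) SC := by
  have h := hf.fderiv_of_isOpen (m := ∞) isOpen_SC (by simp)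
  exact h.clm_apply contDiffOn_const

theorem da {f : ℝ × ℝ → ℝ} (hf : ContDiffOn ℝ ∞ f SC) {z : ℝ × ℝ} (hz : z ∈ SC) :
    DifferentiableAt ℝ f z :=
  (hf.differentiableOn (by simp)).differentiableAt (isOpen_SC.mem_nhds hz)

theorem strip {τ θ : ℝ} (h0 : 0 < θ) (h1 : θ < π) : ((τ, θ) : ℝ × ℝ) ∈ SC :=
  Or.inr (ne_of_gt (Real.sin_pos_of_pos_of_lt_pi h0 h1))

section
variable {κ : ℝ} (hκ : 0 < κ) (hκ1 : κ < 1) (S : SData κ) (W : ℝ × ℝ → ℝ) (hW : WSProp S W)
include hW

theorem d1W {z : ℝ × ℝ} (hz : z ∈ SC) : D1 W z = W z + (1 - S.u z) := by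
  have := hW.2.2.2.2.1 z hz
  linarith

theorem d11W {z : ℝ × ℝ} (hz : z ∈ SC) : D1 (D1 W) z = W z + (1 - S.u z) - D1 S.u z := by
  have h1 : D1 W =ᶠ[𝓝 z] fun y => W y + (1 - S.u y) := by
    filter_upwards [isOpen_SC.mem_nhds hz] with y hy
    exact d1W S W hW hy
  have h2 : D1 (D1 W) z = D1 (fun y => W y + (1 - S.u y)) z := by
    unfold D1 at h1 ⊢
    rw [h1.fderiv_eq]
  have hWd := (da hW.1 hz).hasFDerivAt
  have hud := (da S.smooth hz).hasFDerivAt
  have h3 : HasFDerivAt (fun y => W y + (1 - S.u y)) (fderiv ℝ W z + (0 - fderiv ℝ S.u z)) z :=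
    hWd.add ((hasFDerivAt_const (1 : ℝ) z).sub hud)
  have h4 : D1 (fun y => W y + (1 - S.u y)) z = D1 W z - D1 S.u z := by
    unfold D1
    rw [h3.fderiv]
    simp
    ring
  rw [h2, h4, d1W S W hW hz]

theorem d22W {z : ℝ × ℝ} (hz : z ∈ SC) :
    κ * (W z + D2 (D2 W) z) = D1 S.u z - κ * (1 - S.u z) := by
  have h := hW.2.1 z hz
  unfold LL at h
  rw [d11W S W hW hz, d1W S W hW hz] at h
  linarith

theorem symW (τ θ : ℝ) : W (τ, π - θ) = W (τ, θ) := by
  have h1 := hW.2.2.1 τ (-θ)
  have h2 := hW.2.2.2.1 τ θ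
  rw [show π - θ = -θ + π by ring, h1, h2]

theorem d2W_half (τ : ℝ) : D2 W (τ, π / 2) = 0 := by
  have hz : ((τ, π / 2) : ℝ × ℝ) ∈ SC := strip (by positivity) (by linarith [Real.pi_pos])
  have h1 := hda2 (da hW.1 hz)
  have h2 : HasDerivAt (fun s => W (τ, π - s)) (-(D2 W (τ, π / 2))) (π / 2) := by
    have h3 : HasDerivAt (fun s : ℝ => π - s) (-1) (π / 2) := by
      simpa using (hasDerivAt_id (π / 2)).const_sub π
    have h4 : HasDerivAt (fun s => W (τ, s)) (D2 W (τ, π / 2)) (π - π / 2) := by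
      rw [show π - π / 2 = π / 2 by ring]; exact h1
    have h5 := HasDerivAt.comp (π / 2) h4 h3
    have h6 : D2 W (τ, π / 2) * -1 = -(D2 W (τ, π / 2)) := by ring
    rw [h6] at h5
    exact h5
  have h3 : (fun s => W (τ, π - s)) = fun s => W (τ, s) := by
    funext s; exact symW S W hW τ s
  rw [h3] at h2
  have := h1.unique h2
  linarith

include hκ in
/-- the identity at fixed `τ` -/
theorem ident (τ : ℝ) {α : ℝ} (h0 : 0 < α) (h1 : α < π / 2) :
    ∫ θ in α..(π / 2), Real.sin (θ - α) * (D1 S.u (τ, θ) / κ - (1 - S.u (τ, θ))) =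
      W (τ, α) - Real.sin α * W (τ, π / 2) := by
  have hpi := Real.pi_pos
  have hsc : ∀ θ ∈ Icc α (π / 2), ((τ, θ) : ℝ × ℝ) ∈ SC := fun θ hθ =>
    strip (by linarith [hθ.1]) (by linarith [hθ.2])
  have hm : MapsTo (fun θ : ℝ => ((τ, θ) : ℝ × ℝ)) (Icc α (π / 2)) SC := fun θ hθ => hsc θ hθ
  have hcm : ContinuousOn (fun θ : ℝ => ((τ, θ) : ℝ × ℝ)) (Icc α (π / 2)) := by fun_prop
  have hcW := hW.1.continuousOn.comp hcm hm
  have hcW2 := (cdD2 (cdD2 hW.1)).continuousOn.comp hcm hm
  have hu : uIcc α (π / 2) = Icc α (π / 2) := uIcc_of_le h1.le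
  have hcongr : ∫ θ in α..(π / 2), Real.sin (θ - α) * (D1 S.u (τ, θ) / κ - (1 - S.u (τ, θ))) =
      ∫ θ in α..(π / 2), Real.sin (θ - α) * (W (τ, θ) + D2 (D2 W) (τ, θ)) := by
    apply intervalIntegral.integral_congr
    intro θ hθ
    rw [hu] at hθ
    have := d22W S W hW (hsc θ hθ)
    have h3 : W (τ, θ) + D2 (D2 W) (τ, θ) = D1 S.u (τ, θ) / κ - (1 - S.u (τ, θ)) := by
      field_simp
      linarith
    simp only [h3]
  rw [hcongr]
  have hder : ∀ θ ∈ uIcc α (π / 2), HasDerivAt
      (fun θ => Real.sin (θ - α) * D2 W (τ, θ) - Real.cos (θ - α) * W (τ, θ))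
      (Real.sin (θ - α) * (W (τ, θ) + D2 (D2 W) (τ, θ))) θ := by
    intro θ hθ
    rw [hu] at hθ
    have hz := hsc θ hθ
    have e1 := hda2 (da hW.1 hz)
    have e2 := hda2 (da (cdD2 hW.1) hz)
    have e3 : HasDerivAt (fun θ => Real.sin (θ - α)) (Real.cos (θ - α)) θ := by
      simpa using ((hasDerivAt_id θ).sub_const α).sin
    have e4 : HasDerivAt (fun θ => Real.cos (θ - α)) (-Real.sin (θ - α)) θ := by
      simpa using ((hasDerivAt_id θ).sub_const α).cos
    have e5 := (e3.mul e2).sub (e4.mul e1)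
    exact e5.congr_deriv (by ring)
  have hint : IntervalIntegrable
      (fun θ => Real.sin (θ - α) * (W (τ, θ) + D2 (D2 W) (τ, θ))) volume α (π / 2) := by
    apply ContinuousOn.intervalIntegrable
    rw [hu]
    apply ContinuousOn.mul (by fun_prop)
    exact hcW.add hcW2
  rw [intervalIntegral.integral_eq_sub_of_hasDerivAt hder hint]
  rw [d2W_half S W hW, sub_self, Real.sin_zero, Real.cos_zero, Real.cos_pi_div_two_sub]
  ring

end

/-- differentiation of `∫ sin(θ-α) u(τ,θ) dθ` -/
theorem hdg {κ : ℝ} (S : SData κ) {α : ℝ} (h0 : 0 < α) (h1 : α < π / 2) (τ : ℝ) :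
    HasDerivAt (fun t => ∫ θ in α..(π / 2), Real.sin (θ - α) * S.u (t, θ))
      (∫ θ in α..(π / 2), Real.sin (θ - α) * D1 S.u (τ, θ)) τ := by
  have hpi := Real.pi_pos
  have hK : IsCompact (Icc (τ - 1) (τ + 1) ×ˢ Icc α (π / 2)) := isCompact_Icc.prod isCompact_Icc
  have hsub : Icc (τ - 1) (τ + 1) ×ˢ Icc α (π / 2) ⊆ SC := by
    rintro ⟨t, θ⟩ ⟨_, hθ⟩
    exact strip (by linarith [hθ.1]) (by linarith [hθ.2])
  have hc := (cdD1 S.smooth).continuousOn.mono hsub
  obtain ⟨C, hC⟩ := hK.exists_bound_of_continuousOn hc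
  have key := intervalIntegral.hasDerivAt_integral_of_dominated_loc_of_deriv_le
    (μ := volume) (F := fun t θ => Real.sin (θ - α) * S.u (t, θ))
    (F' := fun t θ => Real.sin (θ - α) * D1 S.u (t, θ)) (x₀ := τ) (a := α) (b := π / 2)
    (s := Metric.ball τ 1) (bound := fun _ => C) (Metric.ball_mem_nhds τ one_pos) ?_ ?_ ?_ ?_ ?_ ?_
  · exact key.2
  · apply Filter.Eventually.of_forall
    intro t
    have : Continuous (fun θ => Real.sin (θ - α) * S.u (t, θ)) := by
      have := S.cont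
      fun_prop
    exact this.aestronglyMeasurable
  · have : Continuous (fun θ => Real.sin (θ - α) * S.u (τ, θ)) := by
      have := S.cont
      fun_prop
    exact this.intervalIntegrable _ _
  · have hm : MapsTo (fun θ : ℝ => ((τ, θ) : ℝ × ℝ)) (Icc α (π / 2)) SC := fun θ hθ =>
      strip (by linarith [hθ.1]) (by linarith [hθ.2])
    have hcm : ContinuousOn (fun θ : ℝ => ((τ, θ) : ℝ × ℝ)) (Icc α (π / 2)) := by fun_prop
    have h2 : ContinuousOn (fun θ => Real.sin (θ - α) * D1 S.u (τ, θ)) (Icc α (π / 2)) :=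
      ContinuousOn.mul (by fun_prop) ((cdD1 S.smooth).continuousOn.comp hcm hm)
    have h3 : IntervalIntegrable (fun θ => Real.sin (θ - α) * D1 S.u (τ, θ)) volume α (π / 2) := by
      apply ContinuousOn.intervalIntegrable
      rwa [uIcc_of_le h1.le]
    exact h3.aestronglyMeasurable_restrict_uIoc
  · apply Filter.Eventually.of_forall
    intro θ hθ t ht
    rw [uIoc_of_le h1.le] at hθ
    rw [Real.ball_eq_Ioo] at ht
    have := hC (t, θ) ⟨⟨ht.1.le, ht.2.le⟩, ⟨hθ.1.le, hθ.2⟩⟩
    rw [norm_mul]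
    have h4 : ‖Real.sin (θ - α)‖ ≤ 1 := by rw [Real.norm_eq_abs]; exact Real.abs_sin_le_one _
    calc ‖Real.sin (θ - α)‖ * ‖D1 S.u (t, θ)‖ ≤ 1 * ‖D1 S.u (t, θ)‖ := by gcongr
      _ ≤ C := by rw [one_mul]; exact this
  · exact intervalIntegrable_const
  · apply Filter.Eventually.of_forall
    intro θ hθ t ht
    rw [uIoc_of_le h1.le] at hθ
    have hz : ((t, θ) : ℝ × ℝ) ∈ SC := strip (by linarith [hθ.1]) (by linarith [hθ.2])
    exact (hda1 (da S.smooth hz)).const_mul _

section part2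

variable {κ : ℝ} (S : SData κ) (W : ℝ × ℝ → ℝ)

theorem u_le (z : ℝ × ℝ) : S.u z ≤ 1 := by
  by_cases h : z ∈ SC
  · exact (S.lt1 z h).le
  · exact (S.slit z h).le

/-- the limit of `e^{-τ} W` -/
def Hinf (θ : ℝ) : ℝ :=
  Real.exp 1 * W (-1, θ) + ∫ t in Ioi (-1 : ℝ), Real.exp (-t) * (1 - S.u (t, θ))

theorem iexp (a : ℝ) : IntegrableOn (fun t : ℝ => Real.exp (-t)) (Ioi a) := by
  simpa using exp_neg_integrableOn_Ioi a one_pos

theorem hprod : Integrable (Function.uncurry fun θ t => Real.exp (-t) * (1 - S.u (t, θ)))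
    ((volume.restrict (Ioc 0 (2 * π))).prod (volume.restrict (Ioi (-1 : ℝ)))) := by
  have hucont := S.cont
  have h1 : Integrable (fun t : ℝ => Real.exp (-t)) (volume.restrict (Ioi (-1 : ℝ))) := iexp (-1)
  have h2 : Integrable (fun _ : ℝ => (1 : ℝ)) (volume.restrict (Ioc 0 (2 * π))) :=
    integrable_const _
  have h3 := h2.mul_prod h1
  refine Integrable.mono' h3 ?_ ?_
  · have h4 : Continuous (Function.uncurry fun θ t => Real.exp (-t) * (1 - S.u (t, θ))) := by
      unfold Function.uncurry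
      fun_prop
    exact h4.aestronglyMeasurable
  · apply Filter.Eventually.of_forall
    rintro ⟨θ, t⟩
    simp only [Function.uncurry]
    have h3 := u_le S (t, θ)
    have h4 := S.pos (t, θ)
    have h5 := Real.exp_pos (-t)
    rw [Real.norm_eq_abs, abs_of_nonneg (by apply mul_nonneg h5.le; linarith)]
    nlinarith

theorem integrable_exp_mul (a θ : ℝ) :
    IntegrableOn (fun t => Real.exp (-t) * (1 - S.u (t, θ))) (Ioi a) := by
  have h1 : IntegrableOn (fun t : ℝ => Real.exp (-t)) (Ioi a) := by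
    simpa using exp_neg_integrableOn_Ioi a one_pos
  refine Integrable.mono' h1 ?_ ?_
  · have := S.cont
    have h2 : Continuous (fun t => Real.exp (-t) * (1 - S.u (t, θ))) := by fun_prop
    exact h2.aestronglyMeasurable
  · apply Filter.Eventually.of_forall
    intro t
    have h3 := u_le S (t, θ)
    have h4 := S.pos (t, θ)
    have h5 := Real.exp_pos (-t)
    rw [Real.norm_eq_abs, abs_of_nonneg (by apply mul_nonneg h5.le; linarith)]
    nlinarith

variable (hW : WSProp S W)
include hW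

theorem hd_h {θ : ℝ} (h0 : 0 < θ) (h1 : θ < π) (t : ℝ) :
    HasDerivAt (fun t => Real.exp (-t) * W (t, θ)) (Real.exp (-t) * (1 - S.u (t, θ))) t := by
  have hz : ((t, θ) : ℝ × ℝ) ∈ SC := strip h0 h1
  have e1 := hda1 (da hW.1 hz)
  have e2 : HasDerivAt (fun t : ℝ => Real.exp (-t)) (-Real.exp (-t)) t := by
    simpa using (hasDerivAt_neg t).exp
  have e3 := e2.mul e1
  refine e3.congr_deriv ?_
  rw [d1W S W hW hz]
  ring

theorem tendsto_h {θ : ℝ} (h0 : 0 < θ) (h1 : θ < π) :
    Tendsto (fun t => Real.exp (-t) * W (t, θ)) atTop (𝓝 (Hinf S W θ)) := by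
  have hI := intervalIntegral_tendsto_integral_Ioi (-1) (integrable_exp_mul S (-1) θ) tendsto_id
  have h2 : ∀ T : ℝ, ∫ t in (-1 : ℝ)..T, Real.exp (-t) * (1 - S.u (t, θ)) =
      Real.exp (-T) * W (T, θ) - Real.exp 1 * W (-1, θ) := by
    intro T
    rw [intervalIntegral.integral_eq_sub_of_hasDerivAt (fun t _ => hd_h S W hW h0 h1 t)]
    · simp
    · have := S.cont
      have h2 : Continuous (fun t => Real.exp (-t) * (1 - S.u (t, θ))) := by fun_prop
      exact h2.intervalIntegrable _ _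
  simp only [id_eq, h2] at hI
  have h3 := hI.add_const (Real.exp 1 * W (-1, θ))
  simp only [sub_add_cancel] at h3
  unfold Hinf
  rw [add_comm (Real.exp 1 * W (-1, θ))]
  exact h3

theorem Hinf_le {θ : ℝ} (h0 : 0 < θ) (h1 : θ < π) (τ : ℝ) :
    Hinf S W θ ≤ Real.exp (-τ) * (W (τ, θ) + (1 - S.u (τ, θ))) := by
  have hder : ∀ t : ℝ, HasDerivAt (fun t => Real.exp (-t) * (W (t, θ) + (1 - S.u (t, θ))))
      (Real.exp (-t) * (-(D1 S.u (t, θ)))) t := by
    intro t
    have hz : ((t, θ) : ℝ × ℝ) ∈ SC := strip h0 h1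
    have e1 := hda1 (da hW.1 hz)
    have e1' := hda1 (da S.smooth hz)
    have e2 : HasDerivAt (fun t : ℝ => Real.exp (-t)) (-Real.exp (-t)) t := by
      simpa using (hasDerivAt_neg t).exp
    have e3 := e2.mul (e1.add (e1'.const_sub 1))
    refine e3.congr_deriv ?_
    rw [d1W S W hW hz]
    simp only [Pi.add_apply]
    ring
  have hanti : Antitone (fun t => Real.exp (-t) * (W (t, θ) + (1 - S.u (t, θ)))) := by
    apply antitone_of_deriv_nonpos
    · intro t; exact (hder t).differentiableAt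
    · intro t
      rw [(hder t).deriv]
      have := S.upos (t, θ) (strip h0 h1)
      have h5 := Real.exp_pos (-t)
      nlinarith [mul_pos h5 this]
  have hlim : Tendsto (fun t => Real.exp (-t) * (W (t, θ) + (1 - S.u (t, θ)))) atTop
      (𝓝 (Hinf S W θ)) := by
    have h2 : Tendsto (fun t => Real.exp (-t) * (1 - S.u (t, θ))) atTop (𝓝 0) := by
      have h3 : Tendsto (fun t : ℝ => Real.exp (-t)) atTop (𝓝 0) :=
        Real.tendsto_exp_neg_atTop_nhds_zero
      refine squeeze_zero (fun t => ?_) (fun t => ?_) h3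
      · apply mul_nonneg (Real.exp_pos _).le; linarith [u_le S (t, θ)]
      · have h4 := S.pos (t, θ)
        have h5 := Real.exp_pos (-t)
        nlinarith
    have h4 := (tendsto_h S W hW h0 h1).add h2
    simpa [mul_add] using h4
  exact hanti.le_of_tendsto hlim τ

theorem Hinf_sym (θ : ℝ) : Hinf S W (π - θ) = Hinf S W θ := by
  unfold Hinf
  rw [symW S W hW]
  have : ∀ t, S.u (t, π - θ) = S.u (t, θ) := by
    intro t
    rw [show π - θ = -θ + π by ring, S.per, S.even]
  simp only [this]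

theorem Hinf_per (θ : ℝ) : Hinf S W (θ + π) = Hinf S W θ := by
  unfold Hinf
  rw [hW.2.2.1]
  simp only [S.per]

theorem three (hκ : 0 < κ) {α : ℝ} (h0 : 0 < α) (h1 : α < π / 2) :
    Hinf S W α = Real.sin α * Hinf S W (π / 2) := by
  have hpi := Real.pi_pos
  set g : ℝ → ℝ := fun t => ∫ θ in α..(π / 2), Real.sin (θ - α) * S.u (t, θ) with hg
  set g' : ℝ → ℝ := fun t => ∫ θ in α..(π / 2), Real.sin (θ - α) * D1 S.u (t, θ) with hg'
  set c : ℝ := ∫ θ in α..(π / 2), Real.sin (θ - α) with hc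
  have hgd : ∀ t, HasDerivAt g (g' t) t := fun t => hdg S h0 h1 t
  have hucont := S.cont
  have hsinn : ∀ θ ∈ Icc α (π / 2), 0 ≤ Real.sin (θ - α) := fun θ hθ =>
    Real.sin_nonneg_of_nonneg_of_le_pi (by linarith [hθ.1]) (by linarith [hθ.2])
  have hg0 : ∀ t, 0 ≤ g t := by
    intro t
    apply intervalIntegral.integral_nonneg h1.le
    intro θ hθ
    exact mul_nonneg (hsinn θ hθ) (S.pos _).le
  have hg1 : ∀ t, g t ≤ c := by
    intro t
    apply intervalIntegral.integral_mono_on h1.le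
    · have : Continuous (fun θ => Real.sin (θ - α) * S.u (t, θ)) := by fun_prop
      exact this.intervalIntegrable _ _
    · have : Continuous (fun θ => Real.sin (θ - α)) := by fun_prop
      exact this.intervalIntegrable _ _
    · intro θ hθ
      have := hsinn θ hθ
      have := u_le S (t, θ)
      nlinarith
  have hg'0 : ∀ t, 0 ≤ g' t := by
    intro t
    apply intervalIntegral.integral_nonneg h1.le
    intro θ hθ
    exact mul_nonneg (hsinn θ hθ) (S.upos _ (strip (by linarith [hθ.1]) (by linarith [hθ.2]))).le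
  have hid : ∀ τ, g' τ / κ - (c - g τ) = W (τ, α) - Real.sin α * W (τ, π / 2) := by
    intro τ
    rw [← ident hκ S W hW τ h0 h1, hg, hg', hc]
    simp only
    have hm : MapsTo (fun θ : ℝ => ((τ, θ) : ℝ × ℝ)) (Icc α (π / 2)) SC := fun θ hθ =>
      strip (by linarith [hθ.1]) (by linarith [hθ.2])
    have hcm : ContinuousOn (fun θ : ℝ => ((τ, θ) : ℝ × ℝ)) (Icc α (π / 2)) := by fun_prop
    have i1 : IntervalIntegrable (fun θ => Real.sin (θ - α) * D1 S.u (τ, θ)) volume α (π / 2) := by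
      apply ContinuousOn.intervalIntegrable
      rw [uIcc_of_le h1.le]
      exact ContinuousOn.mul (by fun_prop) ((cdD1 S.smooth).continuousOn.comp hcm hm)
    have i2 : IntervalIntegrable (fun θ => Real.sin (θ - α)) volume α (π / 2) := by
      have : Continuous (fun θ => Real.sin (θ - α)) := by fun_prop
      exact this.intervalIntegrable _ _
    have i3 : IntervalIntegrable (fun θ => Real.sin (θ - α) * S.u (τ, θ)) volume α (π / 2) := by
      have : Continuous (fun θ => Real.sin (θ - α) * S.u (τ, θ)) := by fun_prop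
      exact this.intervalIntegrable _ _
    rw [← intervalIntegral.integral_div, ← intervalIntegral.integral_sub i2 i3,
      ← intervalIntegral.integral_sub (i1.div_const κ) (i2.sub i3)]
    apply intervalIntegral.integral_congr
    intro θ _
    simp only
    ring
  set Δ : ℝ := Hinf S W α - Real.sin α * Hinf S W (π / 2) with hΔ
  have hlim1 : Tendsto (fun t => Real.exp (-t) * (g' t / κ - (c - g t))) atTop (𝓝 Δ) := by
    have e1 := tendsto_h S W hW h0 (by linarith : α < π)
    have e2 := tendsto_h S W hW (by positivity : 0 < π / 2) (by linarith : π / 2 < π)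
    have e3 := e1.sub (e2.const_mul (Real.sin α))
    refine e3.congr (fun t => ?_)
    rw [hid]
    ring
  have hexp : Tendsto (fun t : ℝ => Real.exp (-t)) atTop (𝓝 0) :=
    Real.tendsto_exp_neg_atTop_nhds_zero
  have hlim2 : Tendsto (fun t => Real.exp (-t) * (c - g t)) atTop (𝓝 0) := by
    have h3 : Tendsto (fun t : ℝ => Real.exp (-t) * c) atTop (𝓝 0) := by
      simpa using hexp.mul_const c
    refine squeeze_zero (fun t => ?_) (fun t => ?_) h3
    · exact mul_nonneg (Real.exp_pos _).le (by linarith [hg1 t])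
    · have := Real.exp_pos (-t)
      have := hg0 t
      nlinarith
  have hlim : Tendsto (fun t => Real.exp (-t) * (g' t / κ)) atTop (𝓝 Δ) := by
    have := hlim1.add hlim2
    rw [add_zero] at this
    refine this.congr (fun t => ?_)
    ring
  have hΔ0 : 0 ≤ Δ := ge_of_tendsto' hlim fun t =>
    mul_nonneg (Real.exp_pos _).le (div_nonneg (hg'0 t) hκ.le)
  have hΔ1 : Δ ≤ 0 := by
    have hmvt : ∀ n : ℕ, ∃ t : ℝ, (n : ℝ) < t ∧ g' t ≤ c := by
      intro n
      obtain ⟨t, ht, he⟩ := exists_hasDerivAt_eq_slope g g' (by linarith : (n : ℝ) < n + 1)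
        (fun t _ => (hgd t).continuousAt.continuousWithinAt) (fun t _ => hgd t)
      refine ⟨t, ht.1, ?_⟩
      rw [he]
      have := hg0 n
      have := hg1 (n + 1)
      simp only [add_sub_cancel_left, div_one]
      linarith
    choose t ht1 ht2 using hmvt
    have htt : Tendsto t atTop atTop :=
      tendsto_atTop_mono (fun n => (ht1 n).le) tendsto_natCast_atTop_atTop
    have h2 := hlim.comp htt
    have h3 : Tendsto (fun n : ℕ => Real.exp (-(t n)) * (c / κ)) atTop (𝓝 0) := by
      simpa using (hexp.comp htt).mul_const (c / κ)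
    refine le_of_tendsto_of_tendsto' h2 h3 fun n => ?_
    simp only [Function.comp]
    have := Real.exp_pos (-(t n))
    have h5 : g' (t n) / κ ≤ c / κ := div_le_div_of_nonneg_right (ht2 n) hκ.le
    exact mul_le_mul_of_nonneg_left h5 this.le
  have : Δ = 0 := le_antisymm hΔ1 hΔ0
  linarith

theorem Hinf_eq (hκ : 0 < κ) {θ : ℝ} (h0 : 0 < θ) (h1 : θ < π) :
    Hinf S W θ = Hinf S W (π / 2) * Real.sin θ := by
  rcases lt_trichotomy θ (π / 2) with h | h | h
  · rw [three S W hW hκ h0 h]; ring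
  · rw [h]; simp
  · rw [← Hinf_sym S W hW, three S W hW hκ (by linarith) (by linarith), Real.sin_pi_sub]; ring

omit hW in
theorem integral_congr_Ioo' {f g : ℝ → ℝ} {a b : ℝ} (hab : a ≤ b) (h : ∀ x ∈ Ioo a b, f x = g x) :
    ∫ x in a..b, f x = ∫ x in a..b, g x := by
  rw [intervalIntegral.integral_of_le hab, intervalIntegral.integral_of_le hab,
    integral_Ioc_eq_integral_Ioo, integral_Ioc_eq_integral_Ioo]
  exact setIntegral_congr_fun measurableSet_Ioo h

theorem cont_W_neg {τ : ℝ} (hτ : τ < 0) : Continuous (fun θ => W (τ, θ)) := by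
  rw [continuous_iff_continuousAt]
  intro θ
  have hz : ((τ, θ) : ℝ × ℝ) ∈ SC := Or.inl hτ
  have h1 := (da hW.1 hz).continuousAt
  have h2 : ContinuousAt (fun θ : ℝ => ((τ, θ) : ℝ × ℝ)) θ := by fun_prop
  exact ContinuousAt.comp (f := fun θ : ℝ => ((τ, θ) : ℝ × ℝ)) h1 h2

omit hW in
theorem swap :
    ∫ θ in (0 : ℝ)..(2 * π), ∫ t in Ioi (-1 : ℝ), Real.exp (-t) * (1 - S.u (t, θ)) =
    ∫ t in Ioi (-1 : ℝ), Real.exp (-t) * ∫ θ in (0 : ℝ)..(2 * π), (1 - S.u (t, θ)) := by
  have hpi := Real.pi_pos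
  rw [intervalIntegral.integral_of_le (by positivity)]
  rw [MeasureTheory.integral_integral_swap]
  · apply integral_congr_ae
    apply Filter.Eventually.of_forall
    intro t
    simp only
    rw [← intervalIntegral.integral_of_le (by positivity), intervalIntegral.integral_const_mul]
  · exact hprod S

theorem int_Hinf (hκ : 0 < κ) : ∫ θ in (0 : ℝ)..(2 * π), Hinf S W θ = S.Per := by
  have hpi := Real.pi_pos
  have hucont := S.cont
  have i1 : IntervalIntegrable (fun θ => Real.exp 1 * W (-1, θ)) volume 0 (2 * π) :=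
    ((cont_W_neg S W hW (by norm_num)).const_mul _).intervalIntegrable _ _
  have hprod := hprod S
  have i2 : IntervalIntegrable
      (fun θ => ∫ t in Ioi (-1 : ℝ), Real.exp (-t) * (1 - S.u (t, θ))) volume 0 (2 * π) := by
    rw [intervalIntegrable_iff_integrableOn_Ioc_of_le (by positivity)]
    exact hprod.integral_prod_left
  have e1 : ∫ θ in (0 : ℝ)..(2 * π), Hinf S W θ =
      (∫ θ in (0 : ℝ)..(2 * π), Real.exp 1 * W (-1, θ)) +
      ∫ θ in (0 : ℝ)..(2 * π), ∫ t in Ioi (-1 : ℝ), Real.exp (-t) * (1 - S.u (t, θ)) := by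
    unfold Hinf
    exact intervalIntegral.integral_add i1 i2
  rw [e1, swap, intervalIntegral.integral_const_mul, hW.2.2.2.2.2.2 (-1) (by norm_num)]
  -- the `t` integral
  have i3 : IntegrableOn (fun t => Real.exp (-t) * ∫ θ in (0 : ℝ)..(2 * π), (1 - S.u (t, θ)))
      (Ioi (-1 : ℝ)) := by
    have h1 := hprod.integral_prod_right
    refine (integrable_congr ?_).mp h1
    apply Filter.Eventually.of_forall
    intro t
    simp only [Function.uncurry]
    rw [← intervalIntegral.integral_of_le (by positivity), intervalIntegral.integral_const_mul]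
  rw [← intervalIntegral.integral_interval_add_Ioi i3
    (i3.mono_set (Ioi_subset_Ioi (by norm_num : (-1 : ℝ) ≤ 0)))]
  have e2 : ∫ t in (-1 : ℝ)..0, Real.exp (-t) * ∫ θ in (0 : ℝ)..(2 * π), (1 - S.u (t, θ)) =
      ∫ t in (-1 : ℝ)..0, (2 * π * Real.exp (-t) - 2 * π * S.C0 * Real.exp (-κ * t)) := by
    apply intervalIntegral.integral_congr
    intro t ht
    rw [uIcc_of_le (by norm_num)] at ht
    simp only
    have hs : ∫ θ in (0 : ℝ)..(2 * π), (1 - S.u (t, θ)) =
        2 * π - 2 * π * S.C0 * Real.exp ((1 - κ) * t) := by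
      rw [intervalIntegral.integral_sub intervalIntegrable_const
        (by
          have : Continuous fun θ => S.u (t, θ) := by fun_prop
          exact this.intervalIntegrable _ _), S.mean t ht.2]
      simp
    rw [hs, mul_sub]
    have : Real.exp (-κ * t) = Real.exp (-t) * Real.exp ((1 - κ) * t) := by
      rw [← Real.exp_add]; congr 1; ring
    rw [this]; ring
  have e3 : ∫ t in (-1 : ℝ)..0, (2 * π * Real.exp (-t) - 2 * π * S.C0 * Real.exp (-κ * t)) =
      (-(2 * π) + 2 * π * S.C0 / κ) - (-(2 * π) * Real.exp 1 + 2 * π * S.C0 / κ * Real.exp κ) := by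
    have hder : ∀ t ∈ uIcc (-1 : ℝ) 0, HasDerivAt
        (fun t => -(2 * π) * Real.exp (-t) + 2 * π * S.C0 / κ * Real.exp (-κ * t))
        (2 * π * Real.exp (-t) - 2 * π * S.C0 * Real.exp (-κ * t)) t := by
      intro t _
      have h1 : HasDerivAt (fun t : ℝ => Real.exp (-t)) (-Real.exp (-t)) t := by
        simpa using (hasDerivAt_neg t).exp
      have h2 : HasDerivAt (fun t : ℝ => Real.exp (-κ * t)) (Real.exp (-κ * t) * (-κ)) t := by
        have h3 : HasDerivAt (fun t : ℝ => -κ * t) (-κ) t := by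
          simpa using (hasDerivAt_id t).const_mul (-κ)
        exact h3.exp
      have h4 := (h1.const_mul (-(2 * π))).add (h2.const_mul (2 * π * S.C0 / κ))
      refine h4.congr_deriv ?_
      field_simp
      ring
    rw [intervalIntegral.integral_eq_sub_of_hasDerivAt hder]
    · simp
    · have : Continuous (fun t => 2 * π * Real.exp (-t) - 2 * π * S.C0 * Real.exp (-κ * t)) := by
        fun_prop
      exact this.intervalIntegrable _ _
  rw [e2, e3]
  unfold SData.Per
  have e4 : Real.exp 1 * Real.exp ((1 - κ) * -1) = Real.exp κ := by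
    rw [← Real.exp_add]; congr 1; ring
  have e5 : Real.exp 1 * (2 * π * (-1 + S.C0 / κ * Real.exp ((1 - κ) * -1))) =
      -(2 * π) * Real.exp 1 + 2 * π * S.C0 / κ * Real.exp κ := by
    rw [← e4]; ring
  rw [e5]
  ring

theorem Per_eq (hκ : 0 < κ) : S.Per = 4 * Hinf S W (π / 2) := by
  have hpi := Real.pi_pos
  rw [← int_Hinf S W hW hκ]
  set a := Hinf S W (π / 2) with ha
  have e1 : ∫ θ in (0 : ℝ)..π, Hinf S W θ = 2 * a := by
    rw [integral_congr_Ioo' (f := Hinf S W) (g := fun θ => a * Real.sin θ) hpi.le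
      (fun θ hθ => Hinf_eq S W hW hκ hθ.1 hθ.2), intervalIntegral.integral_const_mul, integral_sin]
    simp
    ring
  have hper : ∀ θ, Hinf S W θ = Hinf S W (θ + π) := fun θ => (Hinf_per S W hW θ).symm
  have e2 : ∫ θ in π..(2 * π), Hinf S W θ = 2 * a := by
    rw [← e1]
    have h := intervalIntegral.integral_comp_add_right (a := 0) (b := π) (Hinf S W) π
    rw [zero_add, show π + π = 2 * π by ring] at h
    rw [← h]
    apply intervalIntegral.integral_congr
    intro θ _
    exact (hper θ).symm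
  have iH : IntervalIntegrable (Hinf S W) volume 0 (2 * π) := by
    have i1 : IntervalIntegrable (fun θ => Real.exp 1 * W (-1, θ)) volume 0 (2 * π) :=
      ((cont_W_neg S W hW (by norm_num)).const_mul _).intervalIntegrable _ _
    have i2 : IntervalIntegrable
        (fun θ => ∫ t in Ioi (-1 : ℝ), Real.exp (-t) * (1 - S.u (t, θ))) volume 0 (2 * π) := by
      rw [intervalIntegrable_iff_integrableOn_Ioc_of_le (by positivity)]
      exact (hprod S).integral_prod_left
    exact i1.add i2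
  have hI : ∀ a' b' : ℝ, 0 ≤ a' → a' ≤ b' → b' ≤ 2 * π →
      IntervalIntegrable (Hinf S W) volume a' b' := by
    intro a' b' h0 h1 h2
    apply iH.mono_set
    rw [uIcc_of_le h1, uIcc_of_le (by positivity)]
    exact Icc_subset_Icc h0 h2
  rw [← intervalIntegral.integral_add_adjacent_intervals (hI 0 π le_rfl hpi.le (by linarith))
    (hI π (2 * π) hpi.le (by linarith) le_rfl), e1, e2]
  ring

end part2

theorem pkS14b : GS14b := by
  intro κ hκ hκ1 S W hW z hz
  have hpi := Real.pi_pos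
  obtain ⟨τ, θ⟩ := z
  rw [d1W S W hW hz]
  have hP := Per_eq S W hW hκ
  have ha : S.Per / 4 = Hinf S W (π / 2) := by rw [hP]; ring
  rw [ha]
  -- the case `sin θ ≠ 0`
  have main : ∀ τ θ : ℝ, Real.sin θ ≠ 0 →
      Hinf S W (π / 2) * |Real.sin θ| ≤ Real.exp (-τ) * (W (τ, θ) + (1 - S.u (τ, θ))) := by
    intro τ θ hs
    -- reduce to `(0, π)`
    have hWp : ∀ (k : ℤ) (θ : ℝ), W (τ, θ - k * π) = W (τ, θ) := by
      intro k θ
      have hp : Function.Periodic (fun s => W (τ, s)) π := fun s => hW.2.2.1 τ s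
      exact hp.sub_int_mul_eq k
    have hup : ∀ (k : ℤ) (θ : ℝ), S.u (τ, θ - k * π) = S.u (τ, θ) := by
      intro k θ
      have hp : Function.Periodic (fun s => S.u (τ, s)) π := fun s => S.per τ s
      exact hp.sub_int_mul_eq k
    set k : ℤ := ⌊θ / π⌋ with hk
    have hk1 : (k : ℝ) ≤ θ / π := Int.floor_le _
    have hk2 : θ / π < k + 1 := Int.lt_floor_add_one _
    have hb1 : 0 ≤ θ - k * π := by
      have := (le_div_iff₀ hpi).mp hk1
      linarith
    have hb2 : θ - k * π < π := by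
      have := (div_lt_iff₀ hpi).mp hk2
      linarith
    have habs : |Real.sin θ| = |Real.sin (θ - k * π)| := by
      rw [Real.abs_sin_eq_sqrt_one_sub_cos_sq, Real.abs_sin_eq_sqrt_one_sub_cos_sq]
      congr 2
      have h1 : Real.cos (θ - k * π) ^ 2 = Real.cos θ ^ 2 := by
        rw [Real.cos_sub_int_mul_pi]
        rw [mul_pow, ← zpow_natCast, ← zpow_mul, mul_comm k, zpow_mul]
        simp
      rw [h1]
    have hb3 : 0 < θ - k * π := by
      rcases hb1.lt_or_eq with h | h
      · exact h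
      · exfalso
        rw [← h] at habs
        simp at habs
        exact hs habs
    have hsin := Real.sin_pos_of_pos_of_lt_pi hb3 hb2
    rw [habs, abs_of_pos hsin, ← Hinf_eq S W hW hκ hb3 hb2, ← hWp k θ, ← hup k θ]
    exact Hinf_le S W hW hb3 hb2 τ
  by_cases hs : Real.sin θ = 0
  · have hτ : τ < 0 := by
      rcases hz with h | h
      · exact h
      · exact absurd hs h
    have hcW := cont_W_neg S W hW hτ
    have hcu := S.cont
    have c1 : Continuous fun θ' => Real.exp (-τ) * (W (τ, θ') + (1 - S.u (τ, θ'))) := by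
      have : Continuous fun θ' => S.u (τ, θ') := by fun_prop
      exact continuous_const.mul (hcW.add (continuous_const.sub this))
    have c2 : Continuous fun θ' => Hinf S W (π / 2) * |Real.sin θ'| := by fun_prop
    have hne : (𝓝[{θ' | Real.sin θ' ≠ 0}] θ).NeBot := by
      rw [← mem_closure_iff_nhdsWithin_neBot]
      rw [Metric.mem_closure_iff]
      intro ε hε
      refine ⟨θ + min (ε / 2) 1, ?_, ?_⟩
      · have h0 : 0 < min (ε / 2) 1 := lt_min (by positivity) one_pos
        have h1 : min (ε / 2) 1 ≤ 1 := min_le_right _ _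
        have h2 : Real.sin (θ + min (ε / 2) 1) = Real.cos θ * Real.sin (min (ε / 2) 1) := by
          rw [Real.sin_add, hs]; ring
        change Real.sin (θ + min (ε / 2) 1) ≠ 0
        rw [h2]
        have h3 : Real.sin (min (ε / 2) 1) ≠ 0 :=
          ne_of_gt (Real.sin_pos_of_pos_of_lt_pi h0 (by linarith [Real.pi_gt_three]))
        have h4 : Real.cos θ ≠ 0 := by
          intro h5
          have := Real.sin_sq_add_cos_sq θ
          rw [hs, h5] at this
          norm_num at this
        exact mul_ne_zero h4 h3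
      · rw [Real.dist_eq]
        have h0 : 0 < min (ε / 2) 1 := lt_min (by positivity) one_pos
        have h1 : min (ε / 2) 1 ≤ ε / 2 := min_le_left _ _
        rw [show θ - (θ + min (ε / 2) 1) = -(min (ε / 2) 1) by ring, abs_neg, abs_of_pos h0]
        linarith
    refine le_of_tendsto_of_tendsto (c2.continuousAt.mono_left nhdsWithin_le_nhds
      : Tendsto _ (𝓝[{θ' | Real.sin θ' ≠ 0}] θ) _)
      (c1.continuousAt.mono_left nhdsWithin_le_nhds) ?_
    filter_upwards [self_mem_nhdsWithin] with θ' hθ'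
    exact main τ θ' hθ'
  · exact main τ θ hs

end Pool.Agent.Helper29.PCap.S14b
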